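import Mathlib
import Pool.Agent.Helper303.HoMain

open MeasureTheory Set
open Pool.Agent.Helper303.Db Pool.Agent.Helper303.Ho

namespace Pool.Agent.Results.MP_340d6a_an.HolderFails

/-- For every `n ≥ 3` there is a bounded pseudoconvex domain `Ω ⊂ ℂⁿ` with real-analytic boundary
on which `∂̄` cannot be solved with Hölder estimates. -/
theorem result : ∀ n : ℕ, 3 ≤ n → ∃ Ω : Set (Fin n → ℂ),
    IsOpen Ω ∧ IsConnected Ω ∧ Bornology.IsBounded Ω ∧ Pseudoconvex Ω ∧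
      RealAnalyticBoundary Ω ∧ ¬ HolderEstimates Ω := by
  intro n hn
  obtain ⟨m, rfl⟩ : ∃ m, n = m + 3 := ⟨n - 3, by omega⟩
  exact ⟨OmH m, isOpen_OmH, conn_OmH, bdd_OmH, psc_OmH, rab_OmH, no_holder m⟩

end Pool.Agent.Results.MP_340d6a_an.HolderFails
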